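import Pool.Agent.Helper85_Idx.Stmts

/-!
# FTB: a tiny interval of a forest meets at most one leaf
-/

set_option autoImplicit false

namespace Pool.Agent.Idx.H72

open Pool.Agent.Idx

theorem sl_append {T : Type} (a b : List T) (s t : ℕ) :
    sl (a ++ b) s t = sl a s t ++ sl b (s - a.length) (t - a.length) := by
  unfold sl
  rw [List.drop_append, List.take_append, List.length_drop]
  congr 2
  omega

theorem segw_length (S : Setup) {V : Type} {m : ℕ} (h : V → Fin m → Bool) (a : Seg V S.T) :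
    (segw S h a).length = slen S m a := by
  rcases a with ⟨e, b⟩ | u
  · cases b <;> simp [segw, slen]
  · rfl

theorem word_cons (S : Setup) {V : Type} {m : ℕ} (h : V → Fin m → Bool) (a : Seg V S.T)
    (r : List (Seg V S.T)) : word S h (a :: r) = segw S h a ++ word S h r := by
  simp [word]

theorem big_cons (S : Setup) {V : Type} {p l : ℕ} (hl : 1 ≤ l) (a : Seg V S.T)
    (r : List (Seg V S.T)) {s t : ℕ}
    (h : BigI S p l r (s - slen S (p * l) a) (t - slen S (p * l) a)) :
    BigI S p l (a :: r) s t := by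
  obtain ⟨i, e, b, j, hi, hj, h1, h2⟩ := h
  have hb : blk S p l (a :: r) (i + 1) b j = slen S (p * l) a + blk S p l r i b j := by
    simp [blk, start, List.take_succ_cons, add_assoc]
  refine ⟨i + 1, e, b, j, by simpa using hi, hj, ?_, ?_⟩
  · rw [hb]; omega
  · rw [hb]; omega

/-- the claim for a list of segments -/
def Cl (S : Setup) {V : Type} (p l : ℕ) (ω : S.T → ℝ) (Bd : ℝ) (h : V → Fin (p * l) → Bool)
    (segs : List (Seg V S.T)) : Prop :=
  ∀ s t : ℕ, s ≤ t → ¬ BigI S p l segs s t →
    |((sl (word S h segs) s t).map ω).sum| ≤ Bd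

theorem sum_zero {T : Type} (ω : T → ℝ) (w : List T) (hw : ∀ x ∈ w, ω x = 0) :
    (w.map ω).sum = 0 := by
  apply List.sum_eq_zero
  intro y hy
  obtain ⟨x, hx, rfl⟩ := List.mem_map.1 hy
  exact hw x hx

theorem mem_sl {T : Type} {w : List T} {s t : ℕ} {x : T} (h : x ∈ sl w s t) : x ∈ w :=
  List.mem_of_mem_drop (List.mem_of_mem_take h)

theorem pay_zero (S : Setup) {V : Type} {m : ℕ} (h : V → Fin m → Bool) (ω : S.T → ℝ)
    (h1 : ∀ x, ω (S.pl x) = 0) (h2 : ∀ x, ω (S.ni x) = 0) (e : V) (b : Bool) :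
    ∀ x ∈ segw S h (Seg.pay e b), ω x = 0 := by
  intro x hx
  cases b
  · simp only [segw, List.mem_map] at hx
    obtain ⟨y, -, rfl⟩ := hx
    exact h1 y
  · simp only [segw, List.mem_reverse, List.mem_map] at hx
    obtain ⟨y, -, rfl⟩ := hx
    exact h2 y

theorem cl_nil (S : Setup) {V : Type} (p l : ℕ) (ω : S.T → ℝ) {Bd : ℝ} (hB : 0 ≤ Bd)
    (h : V → Fin (p * l) → Bool) : Cl S p l ω Bd h [] := by
  intro s t _ _
  simpa [word, sl] using hB

theorem cl_pay (S : Setup) {V : Type} {p l : ℕ} (hl : 1 ≤ l) (ω : S.T → ℝ) {Bd : ℝ}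
    (h : V → Fin (p * l) → Bool) (h1 : ∀ x, ω (S.pl x) = 0) (h2 : ∀ x, ω (S.ni x) = 0)
    (e : V) (b : Bool) (r : List (Seg V S.T)) (hr : Cl S p l ω Bd h r) :
    Cl S p l ω Bd h (Seg.pay e b :: r) := by
  intro s t hst hnb
  rw [word_cons, sl_append, List.map_append, List.sum_append,
    sum_zero ω _ (fun x hx => pay_zero S h ω h1 h2 e b x (mem_sl hx)), zero_add, segw_length]
  exact hr _ _ (by omega) (fun hb => hnb (big_cons S hl _ _ hb))

theorem sl_zw (ω : ℝ) (n s t : ℕ) {T : Type} (z : T) (w : T → ℝ) (hz : w z = ω) :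
    |((sl (List.replicate n z) s t).map w).sum| ≤ n * |ω| := by
  unfold sl
  rw [List.drop_replicate, List.take_replicate, List.map_replicate, List.sum_replicate, hz,
    nsmul_eq_mul, abs_mul, Nat.abs_cast]
  apply mul_le_mul_of_nonneg_right _ (abs_nonneg _)
  have : min (t - s) (n - s) ≤ n := by omega
  exact_mod_cast this

theorem sl_zw_le (S : ZSetup) (ω : S.T → ℝ) {Bd : ℝ} (x : ℤ)
    (h1 : |(x : ℝ)| * |ω S.z| ≤ Bd) (h2 : |(x : ℝ)| * |ω S.z'| ≤ Bd) (s t : ℕ) :
    |((sl (zw S.z S.z' x) s t).map ω).sum| ≤ Bd := by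
  have hx : ((x.natAbs : ℕ) : ℝ) = |(x : ℝ)| := by
    rw [← Int.cast_abs, ← Int.natCast_natAbs, Int.cast_natCast]
  unfold zw
  refine le_trans (sl_zw _ _ s t _ ω rfl) ?_
  rw [hx]
  split_ifs
  · exact h1
  · exact h2

theorem cl_con (S : Setup) {V : Type} {p l : ℕ} (hp : 1 ≤ p) (hl : 1 ≤ l) (ω : S.T → ℝ)
    {Bd : ℝ} (h : V → Fin (p * l) → Bool) (h1 : ∀ x, ω (S.pl x) = 0)
    (h2 : ∀ x, ω (S.ni x) = 0) (u : List S.T)
    (hu : ∀ s t, |((sl u s t).map ω).sum| ≤ Bd) (e : V) (b : Bool)
    (r : List (Seg V S.T)) (hr : Cl S p l ω Bd h (Seg.pay e b :: r)) :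
    Cl S p l ω Bd h (Seg.con u :: Seg.pay e b :: r) := by
  intro s t hst hnb
  rw [word_cons, sl_append, List.map_append, List.sum_append, segw_length]
  have hu' : segw S h (Seg.con u : Seg V S.T) = u := rfl
  have hul : slen S (p * l) (Seg.con u : Seg V S.T) = u.length := rfl
  rw [hu', hul]
  by_cases hs : u.length ≤ s
  · have : sl u s t = [] := by
      unfold sl
      rw [List.drop_eq_nil_of_le hs]
      simp
    rw [this, List.map_nil, List.sum_nil, zero_add]
    exact hr _ _ (by omega) (fun hb => hnb (big_cons S hl _ _ hb))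
  · push Not at hs
    have ht : t < u.length + l := by
      by_contra hcon
      push Not at hcon
      apply hnb
      refine ⟨1, e, b, if b then p - 1 else 0, by simp, ?_, ?_, ?_⟩
      · cases b <;> simp <;> omega
      · cases b <;> simp [blk, start, slen] <;> omega
      · cases b <;> simp [blk, start, slen] <;> omega
    have hz : ((sl (word S h (Seg.pay e b :: r)) (s - u.length) (t - u.length)).map ω).sum
        = 0 := by
      rw [word_cons, sl_append, List.map_append, List.sum_append,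
        sum_zero ω _ (fun x hx => pay_zero S h ω h1 h2 e b x (mem_sl hx)), zero_add, segw_length]
      have hle : t - u.length - slen S (p * l) (Seg.pay e b : Seg V S.T) = 0 := by
        have : l ≤ p * l := Nat.le_mul_of_pos_left l hp
        simp only [slen]
        omega
      rw [hle]
      simp [sl]
    rw [hz, add_zero]
    exact hu s t

theorem cl_tree (S : ZSetup) {V : Type} {p l : ℕ} (hp : 1 ≤ p) (hl : 1 ≤ l) (ω : S.T → ℝ)
    {Bd : ℝ} (h : V → Fin (p * l) → Bool) (h1 : ∀ x, ω (S.pl x) = 0)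
    (h2 : ∀ x, ω (S.ni x) = 0) (t : BT V) :
    ∀ (r : List (Seg V S.T)), (∀ x ∈ leaves t, |(x : ℝ)| * |ω S.z| ≤ Bd) →
      (∀ x ∈ leaves t, |(x : ℝ)| * |ω S.z'| ≤ Bd) → Cl S.toSetup p l ω Bd h r →
      Cl S.toSetup p l ω Bd h (tsegs S.z S.z' t ++ r) := by
  induction t with
  | leaf e m =>
    intro r hz hz' hr
    simp only [tsegs, List.cons_append, List.nil_append]
    apply cl_pay S.toSetup hl ω h h1 h2
    apply cl_con S.toSetup hp hl ω h h1 h2
    · intro s t
      exact sl_zw_le S ω m (hz m (by simp [leaves])) (hz' m (by simp [leaves])) s t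
    · exact cl_pay S.toSetup hl ω h h1 h2 _ _ _ hr
  | node e a b iha ihb =>
    intro r hz hz' hr
    simp only [tsegs, List.cons_append, List.append_assoc, List.nil_append]
    apply cl_pay S.toSetup hl ω h h1 h2
    apply iha
    · exact fun x hx => hz x (by simp [leaves, hx])
    · exact fun x hx => hz' x (by simp [leaves, hx])
    apply ihb
    · exact fun x hx => hz x (by simp [leaves, hx])
    · exact fun x hx => hz' x (by simp [leaves, hx])
    exact cl_pay S.toSetup hl ω h h1 h2 _ _ _ hr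

/-- FTB -/
theorem ftb : FtbStmt := by
  intro S V ts p l ω Bd h s t hp hl hst _ hnb h1 h2 hB hz hz'
  have key : ∀ ts : List (BT V), (∀ x ∈ (ts.map leaves).flatten, |(x : ℝ)| * |ω S.z| ≤ Bd) →
      (∀ x ∈ (ts.map leaves).flatten, |(x : ℝ)| * |ω S.z'| ≤ Bd) →
      Cl S.toSetup p l ω Bd h (fsegs S.z S.z' ts) := by
    intro ts
    induction ts with
    | nil => intro _ _; exact cl_nil S.toSetup p l ω hB h
    | cons a ts ih =>
      intro hz hz'
      have : fsegs S.z S.z' (a :: ts) = tsegs S.z S.z' a ++ fsegs S.z S.z' ts := by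
        simp [fsegs]
      rw [this]
      apply cl_tree S hp hl ω h h1 h2 a
      · exact fun x hx => hz x (by simp [hx])
      · exact fun x hx => hz' x (by simp [hx])
      apply ih
      · intro x hx
        apply hz x
        rw [List.map_cons, List.flatten_cons, List.mem_append]
        exact Or.inr hx
      · intro x hx
        apply hz' x
        rw [List.map_cons, List.flatten_cons, List.mem_append]
        exact Or.inr hx
  exact key ts hz hz' s t hst hnb

end Pool.Agent.Idx.H72
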