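import Pool.Agent.Helper85_Idx.Stmts

/-!
# TNOD: the edges of the forest are distinct
-/

set_option autoImplicit false

namespace Pool.Agent.Idx.H72

open Pool.Agent.Idx

theorem ename_inj {d : ℕ} {i i' : Fin 3} {w w' : List Bool} (hw : w.length ≤ d)
    (hw' : w'.length ≤ d) (h : ename d i w = ename d i' w') : i = i' ∧ w = w' := by
  unfold ename at h
  rw [Prod.mk.injEq] at h
  refine ⟨h.1, ?_⟩
  apply List.ext_getElem?
  intro j
  by_cases hj : j < d
  · exact congrFun h.2 ⟨j, hj⟩
  · rw [List.getElem?_eq_none (by omega), List.getElem?_eq_none (by omega)]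

theorem edges_cbt_mem {d : ℕ} (i : Fin 3) (x : List Bool → ℤ) : ∀ (n : ℕ) (w : List Bool),
    ∀ e ∈ edges (cbt (ename d i) x n w), ∃ u : List Bool, u.length ≤ n ∧
      e = ename d i (w ++ u) := by
  intro n
  induction n with
  | zero =>
    intro w e he
    simp only [cbt, edges, List.mem_singleton] at he
    exact ⟨[], by simp, by simpa using he⟩
  | succ n ih =>
    intro w e he
    simp only [cbt, edges, List.mem_cons, List.mem_append] at he
    rcases he with he | he | he
    · exact ⟨[], by simp, by simpa using he⟩
    · obtain ⟨u, hu, h⟩ := ih _ e he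
      exact ⟨false :: u, by simpa using hu, by simpa using h⟩
    · obtain ⟨u, hu, h⟩ := ih _ e he
      exact ⟨true :: u, by simpa using hu, by simpa using h⟩

theorem edges_cbt_nodup {d : ℕ} (i : Fin 3) (x : List Bool → ℤ) : ∀ (n : ℕ) (w : List Bool),
    w.length + n ≤ d → (edges (cbt (ename d i) x n w)).Nodup := by
  intro n
  induction n with
  | zero =>
    intro w _
    simp [cbt, edges]
  | succ n ih =>
    intro w hw
    simp only [cbt, edges, List.nodup_cons, List.mem_append, List.nodup_append]
    refine ⟨?_, ih _ (by simp; omega), ih _ (by simp; omega), ?_⟩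
    · rintro (he | he)
      · obtain ⟨u, hu, h⟩ := edges_cbt_mem i x n _ _ he
        have := (ename_inj (by omega) (by simp; omega) h).2
        have h2 := congrArg List.length this
        simp at h2
      · obtain ⟨u, hu, h⟩ := edges_cbt_mem i x n _ _ he
        have := (ename_inj (by omega) (by simp; omega) h).2
        have h2 := congrArg List.length this
        simp at h2
    · intro a ha b hb hab
      subst hab
      obtain ⟨u, hu, h⟩ := edges_cbt_mem i x n _ _ ha
      obtain ⟨u', hu', h'⟩ := edges_cbt_mem i x n _ _ hb
      rw [h] at h'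
      have := (ename_inj (by simp; omega) (by simp; omega) h').2
      simp at this

/-- TNOD -/
theorem tnod : TnodStmt := by
  intro d
  have h0 := edges_cbt_nodup (d := d) 0 (xp d) d [] (by simp)
  have h1 := edges_cbt_nodup (d := d) 1 (xm d) d [] (by simp)
  unfold forest tp tm
  simp only [List.map_cons, List.map_nil, List.flatten_cons, List.flatten_nil, List.append_nil,
    edges]
  rw [List.nodup_append]
  refine ⟨h0, ?_, ?_⟩
  · rw [List.nodup_append]
    refine ⟨h1, by simp, ?_⟩
    intro a ha b hb hab
    subst hab
    obtain ⟨u, hu, h⟩ := edges_cbt_mem 1 (xm d) d _ _ ha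
    rw [List.mem_singleton] at hb
    rw [h] at hb
    have := congrArg Prod.fst hb
    simp [ename] at this
  · intro a ha b hb hab
    subst hab
    obtain ⟨u, hu, h⟩ := edges_cbt_mem 0 (xp d) d _ _ ha
    rw [List.mem_append, List.mem_singleton] at hb
    rcases hb with hb | hb
    · obtain ⟨u', hu', h'⟩ := edges_cbt_mem 1 (xm d) d _ _ hb
      rw [h] at h'
      have := congrArg Prod.fst h'
      simp [ename] at this
    · rw [h] at hb
      have := congrArg Prod.fst hb
      simp [ename] at this

end Pool.Agent.Idx.H72
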